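import Pool.Agent.P.MP_b30443_co.CapRun0

namespace Pool.Agent.Results.MP_b30443_co.CapSet

open Pool.Agent.P.MP_b30443_co.CapSet

/-- For all large `n` there is a cap set in `F_3^n` of size at least `2.22125^n`. -/
theorem result :
    ∃ n₀ : ℕ, ∀ n ≥ n₀, ∃ A : Finset (Fin n → ZMod 3),
      (∀ x y : Fin n → ZMod 3, y ≠ 0 → ¬ (x ∈ A ∧ x + y ∈ A ∧ x + 2 • y ∈ A)) ∧
      (222125 / 100000 : ℝ) ^ n ≤ A.card := by
  have h := sys3.automaton chk_aut chk_ut chk_mt (by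
    intro e he
    exact ⟨_, _, by omega, by omega, chk_pairs0⟩)
  refine eventually_of_growth (by norm_num) h (by norm_num) ?_
  have h1 : ((222125 : ℕ) : ℝ) ^ 162 < (rr : ℝ) * ((100000 : ℕ) : ℝ) ^ 162 := by
    rw [← Nat.cast_pow, ← Nat.cast_pow, ← Nat.cast_mul, Nat.cast_lt]
    exact chk_rate
  have h2 : 3 * (3 * (3 * (6 * 1))) = 162 := by norm_num
  rw [h2, div_pow, div_lt_iff₀ (pow_pos (by norm_num) _)]
  exact h1

end Pool.Agent.Results.MP_b30443_co.CapSet
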