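import Pool.Agent.P.MP_b30443_co.Lines

namespace Pool.Agent.Results.MP_b30443_co.LineFree

open Pool.Agent.P.MP_b30443_co

/-- For a prime `p ≥ 3` and `n = 3 (p-1)(p-2)/2` there is a subset of `𝔽_p^n` of size at least
`9 p^(n-3)` with no nontrivial `p`-term progression. -/
theorem result (p : ℕ) (hp : p.Prime) (h3 : 3 ≤ p) (n : ℕ) (hn : 2 * n = 3 * ((p - 1) * (p - 2))) :
    ∃ A : Finset (Fin n → ZMod p), 9 * p ^ (n - 3) ≤ A.card ∧
      ∀ x y : Fin n → ZMod p, y ≠ 0 → ¬ ∀ i : ℕ, i < p → x + i • y ∈ A := by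
  classical
  have : Fact p.Prime := ⟨hp⟩
  obtain ⟨m, hm, A, hA, hfree⟩ := line_free p h3
  obtain rfl : n = 3 * m := by omega
  have hm1 : 1 ≤ m := by
    have : 2 * 1 ≤ (p - 1) * (p - 2) := Nat.mul_le_mul (by omega) (by omega)
    omega
  let e : (Fin (3 * m) → ZMod p) ≃ₗ[ZMod p] (Fin 3 → Fin m → ZMod p) :=
    (LinearEquiv.funCongrLeft (ZMod p) (ZMod p) finProdFinEquiv).trans
      (LinearEquiv.curry (ZMod p) (ZMod p) (Fin 3) (Fin m))
  refine ⟨A.map e.symm.toEquiv.toEmbedding, ?_, fun x y hy hall => ?_⟩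
  · rw [Finset.card_map]
    have e1 : p ^ (3 * m) = p ^ (3 * m - 3) * p ^ 3 := by rw [← pow_add]; congr 1; omega
    rw [e1, ← mul_assoc] at hA
    exact Nat.le_of_mul_le_mul_right hA (pow_pos hp.pos 3)
  · obtain ⟨t, ht⟩ := hfree (e x) (e y) (fun h => hy (e.map_eq_zero_iff.1 h))
    apply ht
    have h1 := hall t.val (ZMod.val_lt t)
    rw [Finset.mem_map_equiv] at h1
    have h2 : e (x + t.val • y) = e x + t • e y := by
      rw [← Nat.cast_smul_eq_nsmul (ZMod p), ZMod.natCast_zmod_val, map_add, map_smul]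
    rw [← h2]
    exact h1

end Pool.Agent.Results.MP_b30443_co.LineFree
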