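import Pool.Agent.P.MP_b30443_co.Main

namespace Pool.Agent.Results.MP_b30443_co.ThreeTerm

open Pool.Agent.P.MP_b30443_co

/-- For every odd `m` (in particular every prime `m = p ≥ 3`) and all large `n` there is a subset
of `(ℤ/m)^n` of size at least `(0.58 m)^n` with no nontrivial 3-term progression. -/
theorem result (m : ℕ) (hm : Odd m) :
    ∃ n₀ : ℕ, ∀ n ≥ n₀, ∃ A : Finset (Fin n → ZMod m),
      (∀ x y : Fin n → ZMod m, y ≠ 0 → ¬ (x ∈ A ∧ x + y ∈ A ∧ x + 2 • y ∈ A)) ∧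
      (29 / 50 * (m : ℝ)) ^ n ≤ A.card := by
  have hm0 : 0 < m := hm.pos
  have : NeZero m := ⟨hm0.ne'⟩
  obtain ⟨d, B, hd, T, hT, hc⟩ := exists_peel m hm
  obtain ⟨n₀, h⟩ := hT.eventually hd (by positivity) hc
  refine ⟨n₀, fun n hn => ?_⟩
  obtain ⟨A, hA, hA'⟩ := h n hn
  refine ⟨A, ?_, hA'⟩
  rintro x y hy ⟨h1, h2, h3⟩
  have := hA _ h1 _ h2 _ h3 (by rw [two_smul]; abel)
  exact hy (by simpa using this)

end Pool.Agent.Results.MP_b30443_co.ThreeTerm
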